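import Pool.Agent.W503.EH.All

/-!
# Ehrhart's inequality for lattice points, in every dimension

For every nonempty compact convex `K ⊆ ℝ^d`, `d ≥ 1`, with smallest lattice box `Q`,
`G(K) ≤ V(K) + F(K)/2 + ∑_{i ≤ d-2} V_i(Q)`.
-/

namespace Pool.Agent.Results.MP_0139c6_co.EhrhartAllDimensions

open MeasureTheory Pool.Agent.W503.EH

theorem result (d : ℕ) (hd : 1 ≤ d) (K : Set (EuclideanSpace ℝ (Fin d))) (hK : IsCompact K)
    (hKc : Convex ℝ K) (hne : K.Nonempty) (v w : ℕ → ℝ) (hv : IsIntrinsic K v)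
    (hw : IsIntrinsic (latticeBox K) w) :
    ((K ∩ latticePoints d).ncard : ℝ) ≤
      volume.real K + (1 / 2) * (2 * v (d - 1)) + ∑ i ∈ Finset.range (d - 1), w i := by
  obtain ⟨m, rfl⟩ : ∃ m, d = m + 1 := ⟨d - 1, by omega⟩
  have h := ehrhart K hK hKc hne v w hv hw
  have h1 := (TT_le t_THICK' hK hKc hne hv).1
  rw [vol_fl hK] at h1
  rw [h1, Nat.add_sub_cancel]
  linarith

end Pool.Agent.Results.MP_0139c6_co.EhrhartAllDimensions
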